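import Mathlib
import Pool.Agent.K7.H80.MD.Stm

/-!
# Triangles and 4-cycles of the random graph (job MULT of project MD)
-/

set_option autoImplicit false

namespace Pool.Agent.K7.H90.MDMULT

open Finset Pool.Agent.K7.H80.MD

open Classical in
/-- the weight of a graph -/
noncomputable def mu (n : ℕ) (p : ℝ) (G : SimpleGraph (Fin n)) : ℝ :=
  p ^ G.edgeFinset.card * (1 - p) ^ (n.choose 2 - G.edgeFinset.card)

theorem mu_nonneg (n : ℕ) (p : ℝ) (h0 : 0 ≤ p) (h1 : p ≤ 1) (G : SimpleGraph (Fin n)) :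
    0 ≤ mu n p G := by
  unfold mu
  exact mul_nonneg (pow_nonneg h0 _) (pow_nonneg (by linarith) _)

open Classical in
theorem incl (hP : StProd) (n : ℕ) (p : ℝ) (S : Finset (Sym2 (Fin n)))
    (hS : ∀ e ∈ S, ¬ e.IsDiag) :
    ∑ G : SimpleGraph (Fin n), mu n p G * (if S ⊆ G.edgeFinset then 1 else 0) = p ^ S.card := by
  have h := hP n p (fun _ => 1) (fun e => if e ∉ S then 1 else 0)
  have h1 : ∀ G : SimpleGraph (Fin n),
      (∏ e ∈ (univ.filter fun e : Sym2 (Fin n) => ¬ e.IsDiag) \ G.edgeFinset,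
        (if e ∉ S then (1 : ℝ) else 0)) = if S ⊆ G.edgeFinset then 1 else 0 := by
    intro G
    rw [Finset.prod_ite_zero, Finset.prod_const_one]
    congr 1
    apply propext
    constructor
    · intro h2 e he
      by_contra h3
      exact h2 e (by
        rw [Finset.mem_sdiff, Finset.mem_filter]
        exact ⟨⟨Finset.mem_univ _, hS e he⟩, h3⟩) he
    · intro h2 e he h3
      rw [Finset.mem_sdiff] at he
      exact he.2 (h2 h3)
  have h2 : (∏ e ∈ univ.filter (fun e : Sym2 (Fin n) => ¬ e.IsDiag),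
      (p * 1 + (1 - p) * (if e ∉ S then (1 : ℝ) else 0))) = p ^ S.card := by
    have h3 : ∀ e : Sym2 (Fin n), (p * 1 + (1 - p) * (if e ∉ S then (1 : ℝ) else 0)) =
        if e ∈ S then p else 1 := by
      intro e
      by_cases he : e ∈ S
      · simp [he]
      · simp [he]
    rw [Finset.prod_congr rfl (fun e _ => h3 e), Finset.prod_ite_mem, Finset.prod_const]
    congr 2
    apply Finset.inter_eq_right.mpr
    intro e he
    rw [Finset.mem_filter]
    exact ⟨Finset.mem_univ _, hS e he⟩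
  rw [← h2, ← h]
  apply Finset.sum_congr rfl
  intro G _
  rw [h1 G, Finset.prod_const_one, one_mul]
  rfl

open Classical in
theorem bound (hP : StProd) (n : ℕ) (p : ℝ) (h0 : 0 ≤ p) (h1 : p ≤ 1)
    (A : SimpleGraph (Fin n) → Prop) (S : Finset (Sym2 (Fin n))) (k : ℕ)
    (hA : ∀ G, A G → S ⊆ G.edgeFinset) (hk : ∀ G, A G → (∀ e ∈ S, ¬ e.IsDiag) ∧ S.card = k) :
    ∑ G : SimpleGraph (Fin n), mu n p G * (if A G then 1 else 0) ≤ p ^ k := by
  by_cases hex : ∃ G, A G
  · obtain ⟨G₀, hG₀⟩ := hex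
    obtain ⟨hS, hc⟩ := hk G₀ hG₀
    rw [← hc, ← incl hP n p S hS]
    apply Finset.sum_le_sum
    intro G _
    apply mul_le_mul_of_nonneg_left _ (mu_nonneg n p h0 h1 G)
    by_cases hG : A G
    · rw [if_pos hG, if_pos (hA G hG)]
    · rw [if_neg hG]
      split_ifs <;> norm_num
  · have : ∑ G : SimpleGraph (Fin n), mu n p G * (if A G then 1 else 0) = 0 := by
      apply Finset.sum_eq_zero
      intro G _
      rw [if_neg (fun h => hex ⟨G, h⟩), mul_zero]
    rw [this]
    exact pow_nonneg h0 _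

open Classical in
theorem tri (hP : StProd) (n : ℕ) (p : ℝ) (h0 : 0 ≤ p) (h1 : p ≤ 1) (v a b : Fin n) :
    ∑ G : SimpleGraph (Fin n), mu n p G * (if G.Adj v a ∧ G.Adj a b ∧ G.Adj b v then 1 else 0)
      ≤ p ^ 3 := by
  refine le_trans (le_of_eq (Finset.sum_congr rfl (fun G _ => ?_)))
    (bound hP n p h0 h1 (fun G => G.Adj v a ∧ G.Adj a b ∧ G.Adj b v)
    {s(v, a), s(a, b), s(b, v)} 3 ?_ ?_)
  · congr
  · rintro G ⟨e1, e2, e3⟩ e he
    simp only [Finset.mem_insert, Finset.mem_singleton] at he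
    rw [SimpleGraph.mem_edgeFinset]
    rcases he with rfl | rfl | rfl
    · exact e1
    · exact e2
    · exact e3
  · rintro G ⟨e1, e2, e3⟩
    have n1 := e1.ne
    have n2 := e2.ne
    have n3 := e3.ne
    constructor
    · intro e he
      simp only [Finset.mem_insert, Finset.mem_singleton] at he
      rcases he with rfl | rfl | rfl
      · simpa using n1
      · simpa using n2
      · simpa using n3
    · rw [Finset.card_insert_of_notMem, Finset.card_insert_of_notMem, Finset.card_singleton]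
      · simp only [Finset.mem_singleton, Sym2.eq_iff]
        rintro (⟨h, h'⟩ | ⟨h, h'⟩)
        · exact n2 h
        · exact n1 h.symm
      · simp only [Finset.mem_insert, Finset.mem_singleton, Sym2.eq_iff]
        rintro ((⟨h, h'⟩ | ⟨h, h'⟩) | (⟨h, h'⟩ | ⟨h, h'⟩))
        · exact n1 h
        · exact n3 h.symm
        · exact n3 h.symm
        · exact n2 h'

open Classical in
theorem cyc (hP : StProd) (n : ℕ) (p : ℝ) (h0 : 0 ≤ p) (h1 : p ≤ 1) (v a b w : Fin n) :
    ∑ G : SimpleGraph (Fin n), mu n p G * (if a ≠ b ∧ w ≠ v ∧ G.Adj v a ∧ G.Adj a w ∧ G.Adj w b ∧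
      G.Adj b v then 1 else 0) ≤ p ^ 4 := by
  refine le_trans (le_of_eq (Finset.sum_congr rfl (fun G _ => ?_)))
    (bound hP n p h0 h1 (fun G => a ≠ b ∧ w ≠ v ∧ G.Adj v a ∧ G.Adj a w ∧ G.Adj w b ∧
      G.Adj b v) {s(v, a), s(a, w), s(w, b), s(b, v)} 4 ?_ ?_)
  · congr
  · rintro G ⟨-, -, e1, e2, e3, e4⟩ e he
    simp only [Finset.mem_insert, Finset.mem_singleton] at he
    rw [SimpleGraph.mem_edgeFinset]
    rcases he with rfl | rfl | rfl | rfl
    · exact e1
    · exact e2
    · exact e3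
    · exact e4
  · rintro G ⟨hab, hwv, e1, e2, e3, e4⟩
    have n1 := e1.ne
    have n2 := e2.ne
    have n3 := e3.ne
    have n4 := e4.ne
    constructor
    · intro e he
      simp only [Finset.mem_insert, Finset.mem_singleton] at he
      rcases he with rfl | rfl | rfl | rfl
      · simpa using n1
      · simpa using n2
      · simpa using n3
      · simpa using n4
    · rw [Finset.card_insert_of_notMem, Finset.card_insert_of_notMem,
        Finset.card_insert_of_notMem, Finset.card_singleton]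
      · simp only [Finset.mem_singleton, Sym2.eq_iff]
        rintro (⟨h, h'⟩ | ⟨h, h'⟩)
        · exact n3 h
        · exact hwv h
      · simp only [Finset.mem_insert, Finset.mem_singleton, Sym2.eq_iff]
        rintro ((⟨h, h'⟩ | ⟨h, h'⟩) | (⟨h, h'⟩ | ⟨h, h'⟩))
        · exact n2 h
        · exact hab h
        · exact hab h
        · exact n1 h.symm
      · simp only [Finset.mem_insert, Finset.mem_singleton, Sym2.eq_iff]
        rintro ((⟨h, h'⟩ | ⟨h, h'⟩) | (⟨h, h'⟩ | ⟨h, h'⟩) | (⟨h, h'⟩ | ⟨h, h'⟩))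
        · exact n1 h
        · exact hwv h.symm
        · exact hwv h.symm
        · exact n4 h.symm
        · exact n4 h.symm
        · exact hab h'

open Classical in
theorem t (hP : StProd) : StMult := by
  intro n p R hn hp0 hp1 hR
  have hn0 : (0 : ℝ) < n := by exact_mod_cast hn
  rw [le_div_iff₀ hR]
  have hmain : Pr n p (fun G => (n : ℝ) * R < ∑ v, (TM G v : ℝ)) * (n * R) ≤
      (n : ℝ) ^ 3 * p ^ 3 + (n : ℝ) ^ 4 * p ^ 4 := by
    have e1 : Pr n p (fun G => (n : ℝ) * R < ∑ v, (TM G v : ℝ)) * (n * R) ≤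
        ∑ G : SimpleGraph (Fin n), mu n p G * ∑ v, (TM G v : ℝ) := by
      have e2 : Pr n p (fun G => (n : ℝ) * R < ∑ v, (TM G v : ℝ)) =
          ∑ G ∈ (univ : Finset (SimpleGraph (Fin n))).filter
            (fun G => (n : ℝ) * R < ∑ v, (TM G v : ℝ)), mu n p G := rfl
      rw [e2, Finset.sum_mul]
      calc ∑ G ∈ (univ : Finset (SimpleGraph (Fin n))).filter
            (fun G => (n : ℝ) * R < ∑ v, (TM G v : ℝ)), mu n p G * (n * R)
          ≤ ∑ G ∈ (univ : Finset (SimpleGraph (Fin n))).filter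
            (fun G => (n : ℝ) * R < ∑ v, (TM G v : ℝ)), mu n p G * ∑ v, (TM G v : ℝ) := by
            apply Finset.sum_le_sum
            intro G hG
            exact mul_le_mul_of_nonneg_left (Finset.mem_filter.mp hG).2.le
              (mu_nonneg n p hp0 hp1 G)
        _ ≤ _ := by
            apply Finset.sum_le_sum_of_subset_of_nonneg (Finset.filter_subset _ _)
            intro G _ _
            exact mul_nonneg (mu_nonneg n p hp0 hp1 G)
              (Finset.sum_nonneg (fun v _ => Nat.cast_nonneg _))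
    have e3 : ∀ G : SimpleGraph (Fin n), ∀ v : Fin n, (TM G v : ℝ) =
        (∑ q : Fin n × Fin n, if G.Adj v q.1 ∧ G.Adj q.1 q.2 ∧ G.Adj q.2 v then (1 : ℝ) else 0) +
        ∑ q : Fin n × Fin n × Fin n, if q.1 ≠ q.2.1 ∧ q.2.2 ≠ v ∧ G.Adj v q.1 ∧
          G.Adj q.1 q.2.2 ∧ G.Adj q.2.2 q.2.1 ∧ G.Adj q.2.1 v then (1 : ℝ) else 0 := by
      intro G v
      unfold TM
      rw [Nat.cast_add, Finset.natCast_card_filter, Finset.natCast_card_filter]
    have e4 : ∑ G : SimpleGraph (Fin n), mu n p G * ∑ v, (TM G v : ℝ) =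
        ∑ v : Fin n, ((∑ q : Fin n × Fin n, ∑ G : SimpleGraph (Fin n), mu n p G *
          (if G.Adj v q.1 ∧ G.Adj q.1 q.2 ∧ G.Adj q.2 v then (1 : ℝ) else 0)) +
        ∑ q : Fin n × Fin n × Fin n, ∑ G : SimpleGraph (Fin n), mu n p G *
          (if q.1 ≠ q.2.1 ∧ q.2.2 ≠ v ∧ G.Adj v q.1 ∧
          G.Adj q.1 q.2.2 ∧ G.Adj q.2.2 q.2.1 ∧ G.Adj q.2.1 v then (1 : ℝ) else 0)) := by
      simp_rw [Finset.mul_sum]
      rw [Finset.sum_comm]
      apply Finset.sum_congr rfl
      intro v _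
      simp_rw [e3, mul_add, Finset.mul_sum]
      rw [Finset.sum_add_distrib]
      congr 1
      · rw [Finset.sum_comm]
      · rw [Finset.sum_comm]
    refine e1.trans ?_
    rw [e4]
    calc _ ≤ ∑ v : Fin n, ((∑ q : Fin n × Fin n, p ^ 3) +
          ∑ q : Fin n × Fin n × Fin n, p ^ 4) := by
          apply Finset.sum_le_sum
          intro v _
          apply add_le_add
          · exact Finset.sum_le_sum (fun q _ => tri hP n p hp0 hp1 v q.1 q.2)
          · exact Finset.sum_le_sum (fun q _ => cyc hP n p hp0 hp1 v q.1 q.2.1 q.2.2)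
      _ = (n : ℝ) ^ 3 * p ^ 3 + (n : ℝ) ^ 4 * p ^ 4 := by
          simp only [Finset.sum_const, Finset.card_univ, Fintype.card_prod, Fintype.card_fin,
            nsmul_eq_mul]
          push_cast
          ring
  have h2 : n * (Pr n p (fun G => (n : ℝ) * R < ∑ v, (TM G v : ℝ)) * R) ≤
      n * ((n : ℝ) ^ 2 * p ^ 3 + (n : ℝ) ^ 3 * p ^ 4) := by
    calc n * (Pr n p (fun G => (n : ℝ) * R < ∑ v, (TM G v : ℝ)) * R)
        = Pr n p (fun G => (n : ℝ) * R < ∑ v, (TM G v : ℝ)) * (n * R) := by ring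
      _ ≤ (n : ℝ) ^ 3 * p ^ 3 + (n : ℝ) ^ 4 * p ^ 4 := hmain
      _ = n * ((n : ℝ) ^ 2 * p ^ 3 + (n : ℝ) ^ 3 * p ^ 4) := by ring
  exact le_of_mul_le_mul_left h2 hn0

end Pool.Agent.K7.H90.MDMULT
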