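import Mathlib
import Pool.Agent.K7.H24.PD.Stm
import Pool.Agent.Erdos456.Mertens

/-!
# `∑_{K' ≤ p ≤ s} log p / (p (log s + log p)) → log 2` (job ASY of project PK24)
-/

set_option autoImplicit false

namespace Pool.Agent.K7.H90.PDASY

open Filter Topology Finset Pool.Agent.K7.H24.PD

/-- the sum of `log p / p` -/
noncomputable def A (m : ℕ) : ℝ := ∑ p ∈ (Icc 1 m).filter Nat.Prime, Real.log p / p

/-- the weight -/
noncomputable def f (L : ℝ) (n : ℕ) : ℝ := 1 / (L + Real.log n)

/-- the weighted sum -/
noncomputable def W (L : ℝ) (m : ℕ) : ℝ :=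
  ∑ p ∈ (Icc 1 m).filter Nat.Prime, Real.log p / p * f L p

theorem A_succ (m : ℕ) : A (m + 1) = A m +
    if (m + 1).Prime then Real.log (m + 1 : ℕ) / (m + 1 : ℕ) else 0 := by
  unfold A
  rw [Finset.sum_filter, Finset.sum_filter, Finset.sum_Icc_succ_top (by omega)]

theorem W_succ (L : ℝ) (m : ℕ) : W L (m + 1) = W L m +
    (if (m + 1).Prime then Real.log (m + 1 : ℕ) / (m + 1 : ℕ) else 0) * f L (m + 1) := by
  unfold W
  rw [Finset.sum_filter, Finset.sum_filter, Finset.sum_Icc_succ_top (by omega)]
  congr 1
  split_ifs <;> simp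

/-- Abel summation against a lower bound -/
theorem abel (C L : ℝ) (hC : ∀ N : ℕ, 1 ≤ N → Real.log N - C ≤ A N) (hL : 0 < L) (m : ℕ)
    (hm : 1 ≤ m) :
    Real.log (L + Real.log m) - Real.log L - Real.log m * f L m -
      (C + Real.log 2) * (f L 1 - f L m) ≤ W L m - A m * f L m := by
  induction m, hm using Nat.le_induction with
  | base =>
    have h1 : W L 1 = 0 := by
      unfold W
      apply Finset.sum_eq_zero
      intro p hp
      rw [Finset.mem_filter, Finset.mem_Icc] at hp
      have := hp.2.two_le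
      omega
    have h2 : A 1 = 0 := by
      unfold A
      apply Finset.sum_eq_zero
      intro p hp
      rw [Finset.mem_filter, Finset.mem_Icc] at hp
      have := hp.2.two_le
      omega
    rw [h1, h2]
    simp
  | succ m hm ih =>
    have hm0 : (0 : ℝ) < m := by exact_mod_cast hm
    have hm1 : (1 : ℝ) ≤ m := by exact_mod_cast hm
    have hlm : 0 ≤ Real.log m := Real.log_nonneg hm1
    set δ : ℝ := Real.log (m + 1 : ℕ) - Real.log m with hδ
    have hδ0 : 0 ≤ δ := by
      rw [hδ, sub_nonneg]
      apply Real.log_le_log hm0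
      push_cast; linarith
    have hδ2 : δ ≤ Real.log 2 := by
      rw [hδ, ← Real.log_div (by positivity) hm0.ne']
      apply Real.log_le_log (by positivity)
      rw [div_le_iff₀ hm0]
      push_cast; linarith
    have hlm1 : Real.log (m + 1 : ℕ) = Real.log m + δ := by rw [hδ]; ring
    have hx : 0 < L + Real.log m := by linarith
    have hx' : 0 < L + Real.log (m + 1 : ℕ) := by rw [hlm1]; linarith
    have hf : f L (m + 1) ≤ f L m := by
      unfold f
      apply one_div_le_one_div_of_le hx
      rw [hlm1]; linarith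
    have hrat : Real.log (L + Real.log (m + 1 : ℕ)) - Real.log (L + Real.log m) ≤ δ * f L m := by
      rw [← Real.log_div hx'.ne' hx.ne']
      have h1 := Real.log_le_sub_one_of_pos (div_pos hx' hx)
      have h2 : (L + Real.log (m + 1 : ℕ)) / (L + Real.log m) - 1 = δ * f L m := by
        unfold f
        rw [hlm1]
        field_simp
        ring
      linarith
    have hA := hC m hm
    rw [W_succ, A_succ]
    have key : (Real.log m - C) * (f L m - f L (m + 1)) ≤ A m * (f L m - f L (m + 1)) :=
      mul_le_mul_of_nonneg_right hA (by linarith)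
    have key2 : 0 ≤ (Real.log 2 - δ) * (f L m - f L (m + 1)) :=
      mul_nonneg (by linarith) (by linarith)
    rw [hlm1] at hrat ⊢
    nlinarith [ih, hrat, key, key2]

theorem t : StAsy := by
  intro K' ε hε
  obtain ⟨C₀, hC₀⟩ := Pool.Agent.Erdos456.Mert.mertens_log
  set C : ℝ := |C₀| with hCdef
  have hC0 : 0 ≤ C := abs_nonneg _
  have hC : ∀ N : ℕ, 1 ≤ N → Real.log N - C ≤ A N := by
    intro N hN
    have h1 := (abs_le.mp (hC₀ N hN)).1
    have h2 : C₀ ≤ C := le_abs_self _
    unfold A
    linarith
  set D : ℝ := A K' with hD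
  have hD0 : 0 ≤ D := by
    rw [hD]
    unfold A
    apply Finset.sum_nonneg
    intro p hp
    rw [Finset.mem_filter, Finset.mem_Icc] at hp
    exact div_nonneg (Real.log_nonneg (by exact_mod_cast hp.1.1)) (by positivity)
  have hlog : Tendsto (fun s : ℕ => Real.log (s : ℝ)) atTop atTop :=
    Real.tendsto_log_atTop.comp tendsto_natCast_atTop_atTop
  filter_upwards [hlog.eventually_ge_atTop ((2 * C + Real.log 2 + D) / ε + 1),
    eventually_ge_atTop 1, eventually_ge_atTop K'] with s hs hs1 hsK
  set L : ℝ := Real.log s with hL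
  have hL2 : 0 ≤ (2 * C + Real.log 2 + D) / ε := by
    have := Real.log_nonneg (by norm_num : (1 : ℝ) ≤ 2)
    positivity
  have hLpos : 0 < L := by linarith
  have hab := abel C L hC hLpos s hs1
  have hfs : f L s = 1 / (2 * L) := by
    unfold f
    rw [← hL]; ring_nf
  have hf1 : f L 1 = 1 / L := by
    unfold f; simp
  have hAs := hC s hs1
  rw [← hL] at hab hAs
  have hfspos : 0 < f L s := by rw [hfs]; positivity
  have h2 : Real.log (L + L) - Real.log L = Real.log 2 := by
    rw [← two_mul, Real.log_mul (by norm_num) hLpos.ne']; ring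
  have h3 : (L - C) * f L s ≤ A s * f L s := mul_le_mul_of_nonneg_right hAs hfspos.le
  -- lower bound for the full sum
  have hlog2 : 0 ≤ Real.log 2 := Real.log_nonneg (by norm_num)
  have h4 : Real.log 2 - (2 * C + Real.log 2) * (1 / L) ≤ W L s := by
    have h5 : f L s ≤ 1 / L := by
      rw [hfs]
      apply one_div_le_one_div_of_le hLpos; linarith
    rw [hf1] at hab
    nlinarith [mul_nonneg hC0 hfspos.le, mul_nonneg hlog2 hfspos.le,
      mul_nonneg hC0 (sub_nonneg.mpr h5)]
  -- the primes below `K'`
  have h6 : W L s ≤ D * (1 / L) + ∑ p ∈ (Icc K' s).filter Nat.Prime,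
      Real.log p / (p * (Real.log s + Real.log p)) := by
    have h7 : (Icc 1 s).filter Nat.Prime ⊆
        (Icc 1 K').filter Nat.Prime ∪ (Icc K' s).filter Nat.Prime := by
      intro p hp
      rw [Finset.mem_union, Finset.mem_filter, Finset.mem_filter, Finset.mem_Icc, Finset.mem_Icc]
      rw [Finset.mem_filter, Finset.mem_Icc] at hp
      rcases le_total p K' with h | h
      · exact Or.inl ⟨⟨hp.1.1, h⟩, hp.2⟩
      · exact Or.inr ⟨⟨h, hp.1.2⟩, hp.2⟩
    have hnn : ∀ p : ℕ, 0 ≤ Real.log p / p * f L p := by
      intro p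
      rcases Nat.eq_zero_or_pos p with h | h
      · subst h; simp
      · have : 0 ≤ Real.log p := Real.log_nonneg (by exact_mod_cast h)
        unfold f
        positivity
    have h8 : W L s ≤ (∑ p ∈ (Icc 1 K').filter Nat.Prime, Real.log p / p * f L p) +
        ∑ p ∈ (Icc K' s).filter Nat.Prime, Real.log p / p * f L p := by
      have h9 := Finset.sum_union_inter (s₁ := (Icc 1 K').filter Nat.Prime)
        (s₂ := (Icc K' s).filter Nat.Prime) (f := fun p : ℕ => Real.log p / p * f L p)
      have h10 : W L s ≤ ∑ p ∈ (Icc 1 K').filter Nat.Prime ∪ (Icc K' s).filter Nat.Prime,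
          Real.log p / p * f L p :=
        Finset.sum_le_sum_of_subset_of_nonneg h7 (fun p _ _ => hnn p)
      have h11 : 0 ≤ ∑ p ∈ (Icc 1 K').filter Nat.Prime ∩ (Icc K' s).filter Nat.Prime,
          Real.log p / p * f L p := Finset.sum_nonneg (fun p _ => hnn p)
      linarith
    have h12 : (∑ p ∈ (Icc 1 K').filter Nat.Prime, Real.log p / p * f L p) ≤ D * (1 / L) := by
      rw [hD]
      unfold A
      rw [Finset.sum_mul]
      apply Finset.sum_le_sum
      intro p hp
      rw [Finset.mem_filter, Finset.mem_Icc] at hp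
      have hlp : 0 ≤ Real.log p := Real.log_nonneg (by exact_mod_cast hp.1.1)
      apply mul_le_mul_of_nonneg_left _ (by positivity)
      unfold f
      apply one_div_le_one_div_of_le hLpos; linarith
    have h13 : (∑ p ∈ (Icc K' s).filter Nat.Prime, Real.log p / p * f L p) =
        ∑ p ∈ (Icc K' s).filter Nat.Prime, Real.log p / (p * (Real.log s + Real.log p)) := by
      apply Finset.sum_congr rfl
      intro p _
      unfold f
      rw [div_mul_div_comm, mul_one]
    rw [h13] at h8
    linarith
  have h14 : (2 * C + Real.log 2 + D) * (1 / L) ≤ ε := by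
    rw [mul_one_div, div_le_iff₀ hLpos]
    have h15 : (2 * C + Real.log 2 + D) / ε ≤ L := by linarith
    rw [div_le_iff₀ hε] at h15
    linarith
  have h16 : (2 * C + Real.log 2 + D) * (1 / L) =
      (2 * C + Real.log 2) * (1 / L) + D * (1 / L) := by ring
  linarith

end Pool.Agent.K7.H90.PDASY
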