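import Mathlib
import Pool.Agent.K7.H81.PD.Stm3

/-!
# The Dirichlet problem with polynomial data in a ball (job FIS of project PD)
-/

set_option autoImplicit false

noncomputable section

namespace Pool.Agent.K7.H90.PDFIS

open MeasureTheory Filter Topology MvPolynomial Pool.Agent.K7.H81.PD
open scoped ContDiff

variable {N : ℕ}

/-- the polynomial function -/
def ev (P : MvPolynomial (Fin N) ℝ) (x : E N) : ℝ := MvPolynomial.eval (fun i => x i) P

theorem ev_add (p q : MvPolynomial (Fin N) ℝ) : ev (p + q) = fun x => ev p x + ev q x := by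
  funext x; simp [ev]

theorem ev_mul_X (p : MvPolynomial (Fin N) ℝ) (j : Fin N) :
    ev (p * X j) = fun x => ev p x * x j := by
  funext x; simp [ev]

theorem ev_C (a : ℝ) : ev (N := N) (C a) = fun _ => a := by
  funext x; simp [ev]

theorem coord_hasFDerivAt (j : Fin N) (x : E N) :
    HasFDerivAt (fun x : E N => x j) (EuclideanSpace.proj j : E N →L[ℝ] ℝ) x :=
  (EuclideanSpace.proj j : E N →L[ℝ] ℝ).hasFDerivAt

theorem ev_contDiff (P : MvPolynomial (Fin N) ℝ) : ContDiff ℝ ∞ (ev P) := by
  induction P using MvPolynomial.induction_on with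
  | C a => rw [ev_C]; exact contDiff_const
  | add p q hp hq => rw [ev_add]; exact hp.add hq
  | mul_X p j hp =>
    rw [ev_mul_X]
    exact hp.mul (EuclideanSpace.proj j : E N →L[ℝ] ℝ).contDiff

theorem ev_hasFDerivAt (P : MvPolynomial (Fin N) ℝ) (x : E N) :
    HasFDerivAt (ev P) (fderiv ℝ (ev P) x) x :=
  ((ev_contDiff P).differentiable (by simp)).differentiableAt.hasFDerivAt

theorem pd_ev (i : Fin N) (P : MvPolynomial (Fin N) ℝ) : pd i (ev P) = ev (pderiv i P) := by
  induction P using MvPolynomial.induction_on with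
  | C a =>
    funext x
    rw [ev_C, pderiv_C]
    simp [pd, ev]
  | add p q hp hq =>
    funext x
    have h1 := ((ev_hasFDerivAt p x).add (ev_hasFDerivAt q x)).fderiv
    have h2 : pd i (ev (p + q)) x = pd i (ev p) x + pd i (ev q) x := by
      rw [ev_add]
      unfold pd
      change (fderiv ℝ (ev p + ev q) x) _ = _
      rw [h1]; rfl
    rw [h2, hp, hq, map_add, ev_add]
  | mul_X p j hp =>
    funext x
    have h1 := ((ev_hasFDerivAt p x).mul (coord_hasFDerivAt j x)).fderiv
    have h2 : pd i (ev (p * X j)) x = ev p x * (if i = j then 1 else 0) + x j * pd i (ev p) x := by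
      rw [ev_mul_X]
      unfold pd
      change (fderiv ℝ (ev p * fun x : E N => x j) x) _ = _
      rw [h1]
      have h3 : (EuclideanSpace.proj j : E N →L[ℝ] ℝ) (EuclideanSpace.single i 1) =
          if i = j then 1 else 0 := by
        change (EuclideanSpace.single i (1 : ℝ) : E N) j = _
        rw [PiLp.single_apply]
        simp only [eq_comm]
      change ev p x * (EuclideanSpace.proj j : E N →L[ℝ] ℝ) (EuclideanSpace.single i 1) +
        x j * (fderiv ℝ (ev p) x) (EuclideanSpace.single i 1) = _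
      rw [h3]
    rw [h2, hp]
    simp only [ev, Derivation.leibniz, smul_eq_mul, map_add, map_mul, pderiv_X, eval_X]
    rw [Pi.single_apply]
    split_ifs with h3 h4 h4
    · simp
    · exact absurd h3.symm h4
    · exact absurd h4.symm h3
    · simp

/-- `R² - |x|²` -/
def q2 (R : ℝ) : MvPolynomial (Fin N) ℝ := C (R ^ 2) - ∑ i, X i ^ 2

theorem ev_q2 (R : ℝ) (x : E N) : ev (q2 R) x = R ^ 2 - ‖x‖ ^ 2 := by
  rw [EuclideanSpace.real_norm_sq_eq]
  simp [ev, q2]

/-- the Laplacian of polynomials -/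
def lp (P : MvPolynomial (Fin N) ℝ) : MvPolynomial (Fin N) ℝ := ∑ i, pderiv i (pderiv i P)

theorem lap_ev (P : MvPolynomial (Fin N) ℝ) (x : E N) : lap (ev P) x = ev (lp P) x := by
  unfold lap lp
  have h : ∀ i, pd i (pd i (ev P)) x = ev (pderiv i (pderiv i P)) x := by
    intro i
    rw [pd_ev, pd_ev]
  simp_rw [h]
  simp [ev, map_sum]

/-- the operator -/
def T (R : ℝ) : MvPolynomial (Fin N) ℝ →ₗ[ℝ] MvPolynomial (Fin N) ℝ where
  toFun P := lp (q2 R * P)
  map_add' P Q := by
    unfold lp
    rw [← Finset.sum_add_distrib]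
    apply Finset.sum_congr rfl
    intro i _
    rw [mul_add, map_add, map_add]
  map_smul' c P := by
    unfold lp
    rw [RingHom.id_apply, Finset.smul_sum]
    apply Finset.sum_congr rfl
    intro i _
    rw [mul_smul_comm, Derivation.map_smul, Derivation.map_smul]

theorem pderiv_deg (i : Fin N) (d : ℕ) (P : MvPolynomial (Fin N) ℝ)
    (h : P.totalDegree ≤ d + 1) : (pderiv i P).totalDegree ≤ d := by
  rw [← mem_restrictTotalDegree]
  rw [P.as_sum, map_sum]
  apply Submodule.sum_mem
  intro s hs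
  rw [pderiv_monomial, mem_restrictTotalDegree]
  by_cases hsi : s i = 0
  · simp [hsi]
  · refine (totalDegree_monomial_le _ _).trans ?_
    have h1 : (s - Finsupp.single i 1) + Finsupp.single i 1 = s :=
      tsub_add_cancel_of_le (Finsupp.single_le_iff.mpr (Nat.one_le_iff_ne_zero.mpr hsi))
    have h2 := (le_totalDegree hs).trans h
    have h3 : (s.sum fun _ e => e) = ((s - Finsupp.single i 1).sum fun _ e => e) + 1 := by
      conv_lhs => rw [← h1]
      rw [Finsupp.sum_add_index' (fun _ => rfl) (fun _ _ _ => rfl), Finsupp.sum_single_index rfl]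
    have h4 : ((s - Finsupp.single i 1).sum fun _ e => e) + 1 ≤ d + 1 := by
      rw [← h3]; exact h2
    exact Nat.le_of_add_le_add_right h4

theorem q2_deg (R : ℝ) : (q2 (N := N) R).totalDegree ≤ 2 := by
  unfold q2
  refine (totalDegree_sub _ _).trans (max_le ?_ ?_)
  · rw [totalDegree_C]; omega
  · refine (totalDegree_finsetSum _ _).trans (Finset.sup_le (fun i _ => ?_))
    exact (totalDegree_X_pow _ _).le

theorem T_deg (R : ℝ) (d : ℕ) (P : MvPolynomial (Fin N) ℝ)
    (h : P ∈ restrictTotalDegree (Fin N) ℝ d) : T R P ∈ restrictTotalDegree (Fin N) ℝ d := by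
  rw [mem_restrictTotalDegree] at h
  change lp (q2 R * P) ∈ _
  unfold lp
  apply Submodule.sum_mem
  intro i _
  rw [mem_restrictTotalDegree]
  apply pderiv_deg
  apply pderiv_deg
  refine (totalDegree_mul _ _).trans ?_
  have := q2_deg (N := N) R
  omega

theorem ev_mul (p q : MvPolynomial (Fin N) ℝ) (x : E N) : ev (p * q) x = ev p x * ev q x := by
  simp [ev]

theorem T_inj (hM : StMax) (hN : 1 ≤ N) (R : ℝ) (hR : 0 < R) (P : MvPolynomial (Fin N) ℝ)
    (h : T R P = 0) : P = 0 := by
  have hl : ∀ x : E N, lap (ev (q2 R * P)) x = 0 := by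
    intro x
    rw [lap_ev]
    change ev (T R P) x = 0
    rw [h]; simp [ev]
  have hl' : ∀ x : E N, lap (ev (-(q2 R * P))) x = 0 := by
    intro x
    rw [lap_ev]
    have : lp (-(q2 R * P)) = 0 := by
      have h1 : lp (q2 R * P) = 0 := h
      have h2 : lp (-(q2 R * P)) = - lp (q2 R * P) := by
        unfold lp
        rw [← Finset.sum_neg_distrib]
        apply Finset.sum_congr rfl
        intro i _
        rw [map_neg, map_neg]
      rw [h2, h1, neg_zero]
    rw [this]; simp [ev]
  have hb : ∀ x ∈ frontier (Metric.ball (0 : E N) R), ev (q2 R * P) x = 0 := by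
    intro x hx
    have hx' := Metric.frontier_ball_subset_sphere hx
    rw [mem_sphere_zero_iff_norm] at hx'
    rw [ev_mul, ev_q2, hx']; ring
  have hneg : ∀ x : E N, ev (-(q2 R * P)) x = - ev (q2 R * P) x := by
    intro x; simp [ev]
  have h1 := (hM N (Metric.ball 0 R) (ev (q2 R * P)) hN Metric.isOpen_ball Metric.isBounded_ball
    ⟨ev_contDiff _, hb⟩ (fun x _ => (hl x).le)).1
  have h2 := (hM N (Metric.ball 0 R) (ev (-(q2 R * P))) hN Metric.isOpen_ball Metric.isBounded_ball
    ⟨ev_contDiff _, fun x hx => by rw [hneg, hb x hx, neg_zero]⟩ (fun x _ => (hl' x).le)).1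
  have h3 : ∀ x ∈ Metric.ball (0 : E N) R, ev P x = 0 := by
    intro x hx
    have h4 := h1 x hx
    have h5 := h2 x hx
    rw [hneg] at h5
    have h6 : ev (q2 R * P) x = 0 := le_antisymm (by linarith) h4
    rw [ev_mul, ev_q2] at h6
    rw [mem_ball_zero_iff] at hx
    have h7 : R ^ 2 - ‖x‖ ^ 2 ≠ 0 := by
      have := norm_nonneg x
      nlinarith
    exact (mul_eq_zero.mp h6).resolve_left h7
  have hN0 : (0 : ℝ) < N := by exact_mod_cast hN
  set r : ℝ := R / (N + 1) with hr
  have hrpos : 0 < r := by positivity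
  apply funext_set (fun _ : Fin N => Set.Ioo (-r) r) (fun _ => Set.Ioo_infinite (by linarith))
  intro y hy
  rw [map_zero]
  have h8 : (WithLp.toLp 2 y : E N) ∈ Metric.ball (0 : E N) R := by
    rw [mem_ball_zero_iff]
    have h9 : ‖(WithLp.toLp 2 y : E N)‖ ^ 2 < R ^ 2 := by
      rw [EuclideanSpace.real_norm_sq_eq]
      have h10 : ∀ i : Fin N, (WithLp.toLp 2 y : E N) i ^ 2 ≤ r ^ 2 := by
        intro i
        have := hy i (Set.mem_univ i)
        change y i ^ 2 ≤ r ^ 2
        rw [sq_le_sq, abs_of_pos hrpos, abs_le]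
        exact ⟨this.1.le, this.2.le⟩
      calc ∑ i, (WithLp.toLp 2 y : E N) i ^ 2 ≤ ∑ _i : Fin N, r ^ 2 :=
            Finset.sum_le_sum (fun i _ => h10 i)
        _ = N * r ^ 2 := by simp
        _ < R ^ 2 := by
          rw [hr, div_pow, ← mul_div_assoc, div_lt_iff₀ (by positivity)]
          have h11 : 0 < R ^ 2 := by positivity
          have h12 : (N : ℝ) < ((N : ℝ) + 1) ^ 2 := by nlinarith
          calc (N : ℝ) * R ^ 2 < ((N : ℝ) + 1) ^ 2 * R ^ 2 := mul_lt_mul_of_pos_right h12 h11
            _ = R ^ 2 * ((N : ℝ) + 1) ^ 2 := mul_comm _ _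
    exact lt_of_pow_lt_pow_left₀ 2 hR.le h9
  exact h3 _ h8

theorem t : StFis := by
  intro hM N R p hN hR hp
  obtain ⟨P, hP⟩ := hp
  set d := P.totalDegree with hd
  set V := restrictTotalDegree (Fin N) ℝ d with hV
  let T' : V →ₗ[ℝ] V := (T R).restrict (fun Q hQ => T_deg R d Q hQ)
  have hinj : Function.Injective T' := by
    rw [← LinearMap.ker_eq_bot, LinearMap.ker_eq_bot']
    intro Q hQ
    have h1 : T R (Q : MvPolynomial (Fin N) ℝ) = 0 := by
      have := congrArg (fun z : V => (z : MvPolynomial (Fin N) ℝ)) hQ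
      simpa [T'] using this
    exact Subtype.ext (T_inj hM hN R hR _ h1)
  have hsurj : Function.Surjective T' := LinearMap.injective_iff_surjective.mp hinj
  obtain ⟨Q, hQ⟩ := hsurj ⟨P, by rw [hV, mem_restrictTotalDegree]⟩
  have hQ' : T R (Q : MvPolynomial (Fin N) ℝ) = P := by
    have := congrArg (fun z : V => (z : MvPolynomial (Fin N) ℝ)) hQ
    simpa [T'] using this
  refine ⟨ev (Q : MvPolynomial (Fin N) ℝ), ⟨Q, fun x => rfl⟩, fun x => ?_⟩
  have h1 : (fun y : E N => (R ^ 2 - ‖y‖ ^ 2) * ev (Q : MvPolynomial (Fin N) ℝ) y) =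
      ev (q2 R * (Q : MvPolynomial (Fin N) ℝ)) := by
    funext y
    rw [ev_mul, ev_q2]
  rw [h1, lap_ev, hP]
  change ev (T R (Q : MvPolynomial (Fin N) ℝ)) x = _
  rw [hQ']; rfl

end Pool.Agent.K7.H90.PDFIS
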