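import Mathlib

/-!
# Springer's theorem for the curves `y ^ 2 = a x ^ 4 + b x ^ 3 z + c x ^ 2 z ^ 2 + d x z ^ 3 + e z ^ 4`
-/

set_option autoImplicit false

open Polynomial

namespace Pool.Agent.K7.H90.Spr

universe u v w

/-- a square in an extension of odd degree is a square -/
theorem odd_sq {F : Type u} [Field F] {L : Type v} [Field L] [Algebra F L]
    [FiniteDimensional F L] (hodd : Odd (Module.finrank F L)) (s : F)
    (h : ∃ y : L, y ^ 2 = algebraMap F L s) : ∃ y : F, y ^ 2 = s := by
  obtain ⟨y, hy⟩ := h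
  have hi : IsIntegral F y := IsIntegral.of_finite F y
  have h1 : (minpoly F y).natDegree ∣ Module.finrank F L := minpoly.degree_dvd hi
  have h2 : minpoly F y ∣ X ^ 2 - C s := by
    apply minpoly.dvd
    simp [hy]
  have h3 : (minpoly F y).natDegree ≤ 2 := by
    have h4 : (X ^ 2 - C s : F[X]) ≠ 0 := by
      apply Monic.ne_zero
      exact monic_X_pow_sub_C s (by norm_num)
    have := natDegree_le_of_dvd h2 h4
    rwa [natDegree_X_pow_sub_C] at this
  have h5 : Odd (minpoly F y).natDegree := Odd.of_dvd_nat hodd h1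
  have h6 : (minpoly F y).natDegree = 1 := by
    obtain ⟨k, hk⟩ := h5
    omega
  have h7 : y ∈ (algebraMap F L).range := by
    rw [← minpoly.natDegree_eq_one_iff]
    exact h6
  obtain ⟨y0, hy0⟩ := h7
  refine ⟨y0, ?_⟩
  apply (algebraMap F L).injective
  rw [map_pow, hy0, hy]

/-- a polynomial of odd degree has an irreducible factor of odd degree -/
theorem odd_factor {F : Type u} [Field F] : ∀ (n : ℕ) (q : F[X]), q.natDegree = n → Odd n →
    ∃ p : F[X], Irreducible p ∧ Odd p.natDegree ∧ p ∣ q := by
  intro n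
  induction n using Nat.strong_induction_on with
  | _ n ih =>
    intro q hq hn
    have hq0 : q ≠ 0 := by
      rintro rfl
      simp only [natDegree_zero] at hq
      subst hq
      exact absurd hn (by decide)
    have hpos : 0 < q.natDegree := by
      rw [hq]; exact hn.pos
    obtain ⟨p, hp, hpq⟩ := exists_irreducible_of_natDegree_pos hpos
    by_cases hpo : Odd p.natDegree
    · exact ⟨p, hp, hpo, hpq⟩
    · obtain ⟨r, hr⟩ := hpq
      have hr0 : r ≠ 0 := by
        rintro rfl
        exact hq0 (by rw [hr, mul_zero])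
      have hd : q.natDegree = p.natDegree + r.natDegree := by
        rw [hr, natDegree_mul hp.ne_zero hr0]
      have hpp : 0 < p.natDegree := hp.natDegree_pos
      have hre : Odd r.natDegree := by
        rw [Nat.not_odd_iff_even] at hpo
        rw [← hq, hd, Nat.odd_add] at hn
        by_contra hc
        rw [Nat.not_odd_iff_even] at hc
        exact (Nat.not_odd_iff_even.mpr hpo) (hn.mpr hc)
      obtain ⟨p', h1, h2, h3⟩ := ih r.natDegree (by omega) r rfl hre
      exact ⟨p', h1, h2, h3.trans ⟨p, by rw [hr, mul_comm]⟩⟩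

/-- the quartic polynomial -/
noncomputable def quart {F : Type u} [Field F] (a b c d e : F) : F[X] :=
  C a * X ^ 4 + C b * X ^ 3 + C c * X ^ 2 + C d * X + C e

theorem quart_natDegree_le {F : Type u} [Field F] (a b c d e : F) :
    (quart a b c d e).natDegree ≤ 4 := by
  unfold quart
  compute_degree

theorem quart_coeff {F : Type u} [Field F] (a b c d e : F) :
    (quart a b c d e).coeff 4 = a := by
  unfold quart
  simp [coeff_X_pow]

theorem aeval_quart {F : Type u} [Field F] (a b c d e : F) {L : Type v} [Field L] [Algebra F L]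
    (x : L) : aeval x (quart a b c d e) = algebraMap F L a * x ^ 4 + algebraMap F L b * x ^ 3 +
      algebraMap F L c * x ^ 2 + algebraMap F L d * x + algebraMap F L e := by
  simp [quart]

/-- if `a` is not a square, then the degree of `g - h ^ 2` is even and at most
`max 4 (2 deg h)` -/
theorem deg_even {F : Type u} [Field F] (a b c d e : F) (ha : ¬ ∃ y : F, y ^ 2 = a) (h : F[X]) :
    (quart a b c d e - h ^ 2).natDegree = max 4 (2 * h.natDegree) := by
  rcases le_or_gt h.natDegree 2 with hk | hk
  · rw [max_eq_left (by omega)]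
    apply le_antisymm
    · refine (natDegree_sub_le _ _).trans (max_le (quart_natDegree_le a b c d e) ?_)
      rw [natDegree_pow]; omega
    · apply le_natDegree_of_ne_zero
      rw [coeff_sub, quart_coeff]
      intro h0
      apply ha
      refine ⟨h.coeff 2, ?_⟩
      have h1 : (h ^ 2).coeff 4 = h.coeff 2 ^ 2 := by
        have := coeff_pow_of_natDegree_le (p := h) (m := 2) (n := 2) hk
        simpa using this
      rw [h1] at h0
      exact (sub_eq_zero.mp h0).symm
  · rw [max_eq_right (by omega)]
    have h1 : (quart a b c d e).natDegree < (h ^ 2).natDegree := by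
      rw [natDegree_pow]
      have := quart_natDegree_le a b c d e
      omega
    rw [natDegree_sub_eq_right_of_natDegree_lt h1, natDegree_pow]

/-- the descent -/
theorem descent {F : Type u} [Field F] (a b c d e : F) (ha : ¬ ∃ y : F, y ^ 2 = a) :
    ∀ (n : ℕ) (p h : F[X]), p.natDegree = n → Irreducible p → Odd n →
      p ∣ quart a b c d e - h ^ 2 → ∃ x y : F, y ^ 2 = (quart a b c d e).eval x := by
  intro n
  induction n using Nat.strong_induction_on with
  | _ n ih =>
    intro p h hpn hp hn hdvd
    -- reduce h modulo p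
    set k : F[X] := h % p with hk
    have hdk : k.degree < p.degree := EuclideanDomain.mod_lt h hp.ne_zero
    have hdvd' : p ∣ quart a b c d e - k ^ 2 := by
      have h1 : p ∣ h ^ 2 - k ^ 2 := by
        have h2 : p ∣ h - k := by
          have := EuclideanDomain.div_add_mod h p
          exact ⟨h / p, by rw [hk]; linear_combination -this⟩
        exact h2.trans ⟨h + k, by ring⟩
      have h3 := dvd_add hdvd h1
      have h4 : quart a b c d e - h ^ 2 + (h ^ 2 - k ^ 2) = quart a b c d e - k ^ 2 := by ring
      rwa [h4] at h3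
    have hpos : 0 < p.natDegree := hp.natDegree_pos
    have hkn : k.natDegree < n := by
      by_cases hk0 : k = 0
      · rw [hk0, natDegree_zero]; omega
      · rw [← hpn]; exact natDegree_lt_natDegree hk0 hdk
    obtain ⟨q, hq⟩ := hdvd'
    by_cases h0 : quart a b c d e - k ^ 2 = 0
    · refine ⟨0, k.eval 0, ?_⟩
      rw [sub_eq_zero] at h0
      rw [h0, eval_pow]
    · have hq0 : q ≠ 0 := by
        rintro rfl
        exact h0 (by rw [hq, mul_zero])
      by_cases hn1 : n = 1
      · -- a root of p
        have hdeg : p.degree = 1 := by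
          rw [degree_eq_natDegree hp.ne_zero, hpn, hn1]; rfl
        obtain ⟨x, hx⟩ := exists_root_of_degree_eq_one hdeg
        refine ⟨x, k.eval x, ?_⟩
        have h5 : (quart a b c d e - k ^ 2).eval x = 0 := by
          rw [hq, eval_mul, hx.eq_zero, zero_mul]
        rw [eval_sub, eval_pow, sub_eq_zero] at h5
        exact h5.symm
      · have hde := deg_even a b c d e ha k
        have hd : (quart a b c d e - k ^ 2).natDegree = p.natDegree + q.natDegree := by
          rw [hq, natDegree_mul hp.ne_zero hq0]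
        obtain ⟨j, hj⟩ := hn
        have hqo : Odd q.natDegree ∧ q.natDegree < n := by
          rw [Nat.odd_iff]
          rcases le_or_gt (2 * k.natDegree) 4 with h6 | h6
          · rw [max_eq_left h6] at hde
            omega
          · rw [max_eq_right h6.le] at hde
            omega
        obtain ⟨p', h7, h8, h9⟩ := odd_factor q.natDegree q rfl hqo.1
        have h10 : p'.natDegree ≤ q.natDegree := natDegree_le_of_dvd h9 hq0
        exact ih p'.natDegree (by omega) p' k rfl h7 h8
          (h9.trans ⟨p, by rw [hq, mul_comm]⟩)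

/-- **Springer's theorem for `y ^ 2 = quartic form`.** -/
theorem springer4 {F : Type u} [Field F] (a b c d e : F) {L : Type v} [Field L] [Algebra F L]
    [FiniteDimensional F L] (hodd : Odd (Module.finrank F L))
    (h : ∃ x z y : L, (x ≠ 0 ∨ z ≠ 0) ∧ y ^ 2 = algebraMap F L a * x ^ 4 +
      algebraMap F L b * x ^ 3 * z + algebraMap F L c * x ^ 2 * z ^ 2 +
      algebraMap F L d * x * z ^ 3 + algebraMap F L e * z ^ 4) :
    ∃ x z y : F, (x ≠ 0 ∨ z ≠ 0) ∧
      y ^ 2 = a * x ^ 4 + b * x ^ 3 * z + c * x ^ 2 * z ^ 2 + d * x * z ^ 3 + e * z ^ 4 := by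
  by_cases ha : ∃ y : F, y ^ 2 = a
  · obtain ⟨y, hy⟩ := ha
    exact ⟨1, 0, y, Or.inl one_ne_zero, by rw [hy]; ring⟩
  obtain ⟨x, z, y, hxz, hy⟩ := h
  have hz : z ≠ 0 := by
    rintro rfl
    have hx : x ≠ 0 := by
      rcases hxz with h1 | h1
      · exact h1
      · exact absurd rfl h1
    apply ha
    apply odd_sq hodd
    refine ⟨y / x ^ 2, ?_⟩
    rw [div_pow, hy]
    field_simp
    ring
  -- the affine point
  set x0 : L := x / z with hx0
  set y0 : L := y / z ^ 2 with hy0
  have hpt : y0 ^ 2 = aeval x0 (quart a b c d e) := by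
    rw [aeval_quart, hy0, hx0, div_pow, hy]
    field_simp
  have hi : IsIntegral F x0 := IsIntegral.of_finite F x0
  let E : IntermediateField F L := IntermediateField.adjoin F {x0}
  let xE : E := ⟨x0, IntermediateField.mem_adjoin_simple_self F x0⟩
  have hmul : Module.finrank F E * Module.finrank E L = Module.finrank F L :=
    Module.finrank_mul_finrank F E L
  have hodd2 : Odd (Module.finrank E L) := by
    rw [← hmul] at hodd
    exact (Nat.odd_mul.mp hodd).2
  have hodd1 : Odd (Module.finrank F E) := by
    rw [← hmul] at hodd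
    exact (Nat.odd_mul.mp hodd).1
  obtain ⟨y1, hy1⟩ := odd_sq hodd2 (aeval xE (quart a b c d e)) ⟨y0, by
    rw [hpt]
    have : algebraMap E L (aeval xE (quart a b c d e)) = aeval (algebraMap E L xE)
        (quart a b c d e) := (aeval_algebraMap_apply L xE _).symm
    rw [this]
    rfl⟩
  have hy1' : (y1 : L) ^ 2 = aeval x0 (quart a b c d e) := by
    have h1 := congrArg (algebraMap E L) hy1
    rw [map_pow] at h1
    have : algebraMap E L (aeval xE (quart a b c d e)) = aeval (algebraMap E L xE)
        (quart a b c d e) := (aeval_algebraMap_apply L xE _).symm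
    rw [this] at h1
    exact h1
  have hmem : (y1 : L) ∈ IntermediateField.adjoin F {x0} := y1.2
  obtain ⟨hh, hhh⟩ : ∃ hh : F[X], (y1 : L) = aeval x0 hh := by
    have h2 := IntermediateField.adjoin_simple_toSubalgebra_of_isAlgebraic (F := F) hi.isAlgebraic
    have h3 : (y1 : L) ∈ (IntermediateField.adjoin F {x0}).toSubalgebra := hmem
    rw [h2] at h3
    rw [Algebra.adjoin_singleton_eq_range_aeval] at h3
    obtain ⟨q, hq⟩ := h3
    exact ⟨q, hq.symm⟩
  have hdvd : minpoly F x0 ∣ quart a b c d e - hh ^ 2 := by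
    apply minpoly.dvd
    rw [map_sub, map_pow, ← hhh, hy1', sub_self]
  have hdeg : Odd (minpoly F x0).natDegree := by
    rw [← IntermediateField.adjoin.finrank hi]
    exact hodd1
  obtain ⟨x1, y2, h4⟩ := descent a b c d e ha _ (minpoly F x0) hh rfl (minpoly.irreducible hi)
    hdeg hdvd
  refine ⟨x1, 1, y2, Or.inr one_ne_zero, ?_⟩
  rw [h4]
  simp only [quart, eval_add, eval_mul, eval_C, eval_pow, eval_X]
  ring

/-- **Zero-cycles of degree one.** If the curve `y ^ 2 = quartic` has points over finite extensions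
`L i` of `F` and `∑ m i * [L i : F] = 1`, then it has a point over `F`. -/
theorem zc4 {F : Type u} [Field F] (a b c d e : F) {ι : Type w} (s : Finset ι)
    (L : ι → Type v) [∀ i, Field (L i)] [∀ i, Algebra F (L i)] [∀ i, FiniteDimensional F (L i)]
    (m : ι → ℤ) (hm : ∑ i ∈ s, m i * (Module.finrank F (L i) : ℤ) = 1)
    (h : ∀ i ∈ s, ∃ x z y : L i, (x ≠ 0 ∨ z ≠ 0) ∧ y ^ 2 = algebraMap F (L i) a * x ^ 4 +
      algebraMap F (L i) b * x ^ 3 * z + algebraMap F (L i) c * x ^ 2 * z ^ 2 +
      algebraMap F (L i) d * x * z ^ 3 + algebraMap F (L i) e * z ^ 4) :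
    ∃ x z y : F, (x ≠ 0 ∨ z ≠ 0) ∧
      y ^ 2 = a * x ^ 4 + b * x ^ 3 * z + c * x ^ 2 * z ^ 2 + d * x * z ^ 3 + e * z ^ 4 := by
  have h1 : ∃ i ∈ s, Odd (Module.finrank F (L i)) := by
    by_contra hc
    push Not at hc
    have h2 : (2 : ℤ) ∣ ∑ i ∈ s, m i * (Module.finrank F (L i) : ℤ) := by
      apply Finset.dvd_sum
      intro i hi
      have h3 := hc i hi
      rw [Nat.not_odd_iff_even] at h3
      obtain ⟨r, hr⟩ := h3
      exact ⟨m i * r, by rw [hr]; push_cast; ring⟩
    rw [hm] at h2
    omega
  obtain ⟨i, hi, ho⟩ := h1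
  exact springer4 a b c d e ho (h i hi)

end Pool.Agent.K7.H90.Spr
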