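import Mathlib
import Pool.Agent.K7.H60.UP.Stm

/-!
# Coefficients of a univalent cubic polynomial (job COEF of project UP)
-/

set_option autoImplicit false

namespace Pool.Agent.K7.H90.UPCOEF

open Pool.Agent.K7.H60.UP

/-- the key fact: for `0 ≤ c < 1`, `1 + 2 a √c z + b (4 c - 1) z²` has no zero in the disc -/
theorem key (a b : ℂ)
    (h : Set.InjOn (fun z : ℂ => z + a * z ^ 2 + b * z ^ 3) (Metric.ball 0 1))
    (c : ℝ) (hc0 : 0 ≤ c) (hc1 : c < 1) (z : ℂ) (hz : ‖z‖ < 1) :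
    1 + (2 * (Real.sqrt c : ℂ) * a) * z + ((4 * c - 1 : ℝ) : ℂ) * b * z ^ 2 ≠ 0 := by
  intro h0
  by_cases hz0 : z = 0
  · subst hz0
    simp at h0
  set u : ℝ := Real.sqrt c with hu
  set v : ℝ := Real.sqrt (1 - c) with hv
  have hu2 : u ^ 2 = c := Real.sq_sqrt hc0
  have hv2 : v ^ 2 = 1 - c := Real.sq_sqrt (by linarith)
  have hvpos : 0 < v := Real.sqrt_pos.mpr (by linarith)
  set e : ℂ := (u : ℂ) + (v : ℂ) * Complex.I with he
  set f : ℂ := (u : ℂ) - (v : ℂ) * Complex.I with hf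
  have hu2c : (u : ℂ) ^ 2 = (c : ℂ) := by exact_mod_cast hu2
  have hv2c : (v : ℂ) ^ 2 = 1 - (c : ℂ) := by exact_mod_cast hv2
  have hne : e - f ≠ 0 := by
    have : e - f = 2 * (v : ℂ) * Complex.I := by rw [he, hf]; ring
    rw [this]
    have hv' : (v : ℂ) ≠ 0 := by exact_mod_cast hvpos.ne'
    exact mul_ne_zero (mul_ne_zero two_ne_zero hv') Complex.I_ne_zero
  have hef : e * f = 1 := by
    rw [he, hf]
    have : ((u : ℂ) + (v : ℂ) * Complex.I) * ((u : ℂ) - (v : ℂ) * Complex.I)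
        = (u : ℂ) ^ 2 - (v : ℂ) ^ 2 * Complex.I ^ 2 := by ring
    rw [this, Complex.I_sq, hu2c, hv2c]; ring
  have hsum : e + f = 2 * (u : ℂ) := by rw [he, hf]; ring
  have hne1 : ‖e‖ = 1 := by
    have h1 : ‖e‖ ^ 2 = 1 := by
      rw [← Complex.normSq_eq_norm_sq, he, Complex.normSq_add_mul_I]
      linarith
    nlinarith [norm_nonneg e]
  have hnf1 : ‖f‖ = 1 := by
    have h2 : ‖e * f‖ = 1 := by rw [hef]; simp
    rw [norm_mul, hne1, one_mul] at h2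
    exact h2
  have hm1 : z * e ∈ Metric.ball (0 : ℂ) 1 := by
    rw [mem_ball_zero_iff, norm_mul, hne1, mul_one]; exact hz
  have hm2 : z * f ∈ Metric.ball (0 : ℂ) 1 := by
    rw [mem_ball_zero_iff, norm_mul, hnf1, mul_one]; exact hz
  have hsq : e ^ 2 + e * f + f ^ 2 = (4 * c - 1 : ℝ) := by
    have : e ^ 2 + e * f + f ^ 2 = (e + f) ^ 2 - e * f := by ring
    rw [this, hsum, hef]
    push_cast
    rw [mul_pow, hu2c]; ring
  have hdiff : (z * e + a * (z * e) ^ 2 + b * (z * e) ^ 3) -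
      (z * f + a * (z * f) ^ 2 + b * (z * f) ^ 3) =
      z * (e - f) * (1 + (2 * (u : ℂ) * a) * z + ((4 * c - 1 : ℝ) : ℂ) * b * z ^ 2) := by
    rw [← hsq, ← hsum]; ring
  rw [h0, mul_zero] at hdiff
  have heq : z * e = z * f := h hm1 hm2 (sub_eq_zero.mp hdiff)
  have : z * (e - f) = 0 := by rw [mul_sub, heq, sub_self]
  exact (mul_ne_zero hz0 hne) this

theorem t (hQ : StQua) : StCoef := by
  intro a b h
  have hk : ∀ c : ℝ, 0 ≤ c → c < 1 →
      |4 * c - 1| * ‖b‖ ≤ 1 ∧ 2 * Real.sqrt c * ‖a‖ ≤ 1 + |4 * c - 1| * ‖b‖ := by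
    intro c hc0 hc1
    have h1 := hQ (2 * (Real.sqrt c : ℂ) * a) (((4 * c - 1 : ℝ) : ℂ) * b)
      (fun z hz => key a b h c hc0 hc1 z hz)
    have e1 : ‖((4 * c - 1 : ℝ) : ℂ) * b‖ = |4 * c - 1| * ‖b‖ := by
      rw [norm_mul, Complex.norm_real, Real.norm_eq_abs]
    have e2 : ‖2 * (Real.sqrt c : ℂ) * a‖ = 2 * Real.sqrt c * ‖a‖ := by
      rw [norm_mul, norm_mul, Complex.norm_real, Real.norm_eq_abs,
        abs_of_nonneg (Real.sqrt_nonneg c)]
      simp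
    rw [e1, e2] at h1
    exact h1
  have hb : ‖b‖ ≤ 1 / 3 := by
    by_contra hcon
    push Not at hcon
    have hb0 : 0 < ‖b‖ := by linarith
    have hinv : 1 / ‖b‖ < 3 := by
      rw [div_lt_iff₀ hb0]; linarith
    have hinv0 : 0 < 1 / ‖b‖ := by positivity
    have h1 := (hk ((1 + (1 + 1 / ‖b‖) / 4) / 2) (by linarith) (by linarith)).1
    have h2 : 0 ≤ 4 * ((1 + (1 + 1 / ‖b‖) / 4) / 2) - 1 := by linarith
    rw [abs_of_nonneg h2] at h1
    have h3 : 1 / ‖b‖ * ‖b‖ = 1 := by field_simp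
    nlinarith
  refine ⟨hb, ?_, ?_⟩
  · have h1 := (hk (1 / 2) (by norm_num) (by norm_num)).2
    have h2 : |(4 : ℝ) * (1 / 2) - 1| = 1 := by norm_num
    rw [h2, one_mul] at h1
    have h3 : Real.sqrt (1 / 2) * Real.sqrt 2 = 1 := by
      rw [← Real.sqrt_mul (by norm_num)]; norm_num
    have h4 : 0 < Real.sqrt 2 := by positivity
    have h5 : 2 * Real.sqrt (1 / 2) * ‖a‖ ≤ 4 / 3 := by linarith
    have h6 : 2 * ‖a‖ ≤ 4 / 3 * Real.sqrt 2 := by
      have := mul_le_mul_of_nonneg_right h5 h4.le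
      calc 2 * ‖a‖ = 2 * (Real.sqrt (1 / 2) * Real.sqrt 2) * ‖a‖ := by rw [h3]; ring
        _ = 2 * Real.sqrt (1 / 2) * ‖a‖ * Real.sqrt 2 := by ring
        _ ≤ 4 / 3 * Real.sqrt 2 := this
    linarith
  · intro hb0
    subst hb0
    by_contra hcon
    push Not at hcon
    have ha0 : 0 < ‖a‖ := by linarith
    -- choose `c = s ^ 2` with `s = (1 + 1 / (2 ‖a‖)) / 2 < 1`
    set s : ℝ := (1 + 1 / (2 * ‖a‖)) / 2 with hs
    have hi : 1 / (2 * ‖a‖) < 1 := by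
      rw [div_lt_one (by positivity)]; linarith
    have hi0 : 0 < 1 / (2 * ‖a‖) := by positivity
    have hs1 : s < 1 := by rw [hs]; linarith
    have hs0 : 0 < s := by rw [hs]; linarith
    have h1 := (hk (s ^ 2) (by positivity) (by nlinarith)).2
    rw [Real.sqrt_sq hs0.le, norm_zero, mul_zero, add_zero] at h1
    have h3 : 1 / (2 * ‖a‖) * (2 * ‖a‖) = 1 := by field_simp
    have h4 : 2 * s * ‖a‖ = ‖a‖ + 1 / (2 * ‖a‖) * (2 * ‖a‖) / 2 := by
      rw [hs]; ring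
    rw [h4, h3] at h1
    linarith

end Pool.Agent.K7.H90.UPCOEF
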